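import Mathlib
import Pool.Agent.H220.TS.Stm

set_option autoImplicit false

open Set Filter Topology Metric
open scoped ComplexConjugate
open Pool.Agent.H220.TS

namespace Pool.Agent.H190.TS

/-- the involution of the disc -/
noncomputable def T (a z : ℂ) : ℂ := (a - z) / (1 - conj a * z)

theorem mem_D {z : ℂ} : z ∈ D ↔ ‖z‖ < 1 := mem_ball_zero_iff

theorem den_ne {a z : ℂ} (ha : a ∈ D) (hz : z ∈ D) : 1 - conj a * z ≠ 0 := by
  rw [mem_D] at ha hz
  intro h
  have h1 : conj a * z = 1 := (sub_eq_zero.1 h).symm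
  have h2 : ‖conj a * z‖ = 1 := by rw [h1, norm_one]
  rw [norm_mul, Complex.norm_conj] at h2
  have h3 : ‖a‖ * ‖z‖ < 1 := by
    calc ‖a‖ * ‖z‖ ≤ ‖a‖ * 1 := mul_le_mul_of_nonneg_left hz.le (norm_nonneg _)
      _ < 1 := by rw [mul_one]; exact ha
  linarith

theorem norm_T_lt {a z : ℂ} (ha : a ∈ D) (hz : z ∈ D) : ‖T a z‖ < 1 := by
  have hne := den_ne ha hz
  unfold T
  rw [norm_div, div_lt_one (norm_pos_iff.2 hne)]
  rw [mem_D] at ha hz
  apply lt_of_pow_lt_pow_left₀ 2 (norm_nonneg _)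
  rw [← Complex.normSq_eq_norm_sq, ← Complex.normSq_eq_norm_sq]
  have h1 : Complex.normSq (1 - conj a * z) - Complex.normSq (a - z) =
      (1 - ‖a‖ ^ 2) * (1 - ‖z‖ ^ 2) := by
    rw [← Complex.normSq_eq_norm_sq, ← Complex.normSq_eq_norm_sq]
    simp only [Complex.normSq_apply, Complex.sub_re, Complex.sub_im, Complex.mul_re, Complex.mul_im,
      Complex.conj_re, Complex.conj_im, Complex.one_re, Complex.one_im]
    ring
  have h2 : 0 < (1 - ‖a‖ ^ 2) * (1 - ‖z‖ ^ 2) := by
    have ha' : ‖a‖ ^ 2 < 1 := by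
      have := norm_nonneg a
      nlinarith
    have hz' : ‖z‖ ^ 2 < 1 := by
      have := norm_nonneg z
      nlinarith
    exact mul_pos (by linarith) (by linarith)
  linarith

theorem T_mem {a z : ℂ} (ha : a ∈ D) (hz : z ∈ D) : T a z ∈ D := mem_D.2 (norm_T_lt ha hz)

theorem T_diff {a : ℂ} (ha : a ∈ D) : DifferentiableOn ℂ (T a) D := by
  intro z hz
  have hne := den_ne ha hz
  refine DifferentiableAt.differentiableWithinAt ?_
  unfold T
  exact (by fun_prop : DifferentiableAt ℂ (fun z => a - z) z).div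
    (by fun_prop : DifferentiableAt ℂ (fun z => 1 - conj a * z) z) hne

theorem T_inv {a z : ℂ} (ha : a ∈ D) (hz : z ∈ D) : T a (T a z) = z := by
  have hne := den_ne ha hz
  have hne2 := den_ne ha (T_mem ha hz)
  unfold T at hne2 ⊢
  rw [div_eq_iff hne2]
  have hq : (a - z) / (1 - conj a * z) * (1 - conj a * z) = a - z := div_mul_cancel₀ _ hne
  linear_combination -hq

theorem T_zero (a : ℂ) : T a 0 = a := by
  unfold T
  simp

theorem T_self (a : ℂ) : T a a = 0 := by
  unfold T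
  simp

theorem psi_eq (z w : ℂ) : psi z w = ‖T z w‖ := rfl

theorem s_pick : S_pick := by
  refine ⟨fun z hz w hw => by rw [psi_eq]; exact norm_T_lt hz hw, ?_⟩
  intro f hf hm z hz w hw
  have hfz := hm hz
  have hg : DifferentiableOn ℂ (fun ζ => T (f z) (f (T z ζ))) (ball 0 1) := by
    have h1 : DifferentiableOn ℂ (fun ζ => f (T z ζ)) D :=
      hf.comp (T_diff hz) fun ζ hζ => T_mem hz hζ
    exact (T_diff hfz).comp h1 fun ζ hζ => hm (T_mem hz hζ)
  have hmaps : MapsTo (fun ζ => T (f z) (f (T z ζ))) (ball 0 1) (closedBall 0 1) := by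
    intro ζ hζ
    rw [mem_closedBall_zero_iff]
    exact (norm_T_lt hfz (hm (T_mem hz hζ))).le
  have h0 : (fun ζ => T (f z) (f (T z ζ))) 0 = 0 := by
    show T (f z) (f (T z 0)) = 0
    rw [T_zero, T_self]
  have hkey := Complex.norm_le_norm_of_mapsTo_ball hg hmaps h0 (norm_T_lt hz hw)
  have hkey2 : ‖T (f z) (f (T z (T z w)))‖ ≤ ‖T z w‖ := hkey
  rw [T_inv hz hw] at hkey2
  rw [psi_eq, psi_eq]
  exact hkey2

end Pool.Agent.H190.TS
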